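import Pool.Agent.Helper36.LM.Defs

/-!
# LM-J2: the dimension count
-/

set_option autoImplicit false

namespace Pool.Agent.Helper36.LM

open Module Finset

variable {K : Type} [Field K] {E : Type} [AddCommGroup E] [Module K E] [FiniteDimensional K E]

namespace DimCount

theorem swap {T : E →ₗ[K] Dual K E} (alt : ∀ φ, T φ φ = 0) (u v : E) : T u v = - T v u := by
  have h := alt (u + v)
  simp only [map_add, LinearMap.add_apply, alt] at h
  linear_combination h

theorem finrank_map (T : E →ₗ[K] Dual K E) (W : Submodule K E) :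
    finrank K (W.map T) + finrank K (W ⊓ LinearMap.ker T : Submodule K E) = finrank K W := by
  have h := LinearMap.finrank_range_add_finrank_ker (T.domRestrict W)
  have h1 : LinearMap.range (T.domRestrict W) = W.map T := by
    rw [LinearMap.range_domRestrict]
  have h2 : finrank K (LinearMap.ker (T.domRestrict W)) =
      finrank K (W ⊓ LinearMap.ker T : Submodule K E) := by
    have e : (LinearMap.ker (T.domRestrict W)).map W.subtype = W ⊓ LinearMap.ker T := by
      ext x
      simp only [Submodule.mem_map, LinearMap.mem_ker, Submodule.subtype_apply,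
        Submodule.mem_inf]
      constructor
      · rintro ⟨y, hy, rfl⟩
        exact ⟨y.2, hy⟩
      · rintro ⟨h1, h2⟩
        exact ⟨⟨x, h1⟩, h2, rfl⟩
    rw [← e, Submodule.finrank_map_subtype_eq]
  rw [h1, h2] at h
  exact h

theorem ker_le_orth {T : E →ₗ[K] Dual K E} (alt : ∀ φ, T φ φ = 0) (S : Submodule K E) :
    LinearMap.ker T ≤ orth T S := by
  intro v hv w _
  rw [swap alt, LinearMap.mem_ker.1 hv]
  simp

theorem orth_eq (T : E →ₗ[K] Dual K E) (S : Submodule K E) :
    orth T S = (S.map T).dualCoannihilator := by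
  ext v
  rw [mem_orth, Submodule.mem_dualCoannihilator]
  constructor
  · rintro h f ⟨w, hw, rfl⟩
    exact h w hw
  · intro h w hw
    exact h _ ⟨w, hw, rfl⟩

/-- the restriction of the form to a subspace -/
noncomputable def res (T : E →ₗ[K] Dual K E) (W : Submodule K E) : W →ₗ[K] Dual K W :=
  (Dual.transpose (R := K) W.subtype).comp (T.comp W.subtype)

theorem res_apply (T : E →ₗ[K] Dual K E) (W : Submodule K E) (u v : W) :
    res T W u v = T u v := rfl

theorem finrank_sup_sub {T : E →ₗ[K] Dual K E} (alt : ∀ φ, T φ φ = 0) {S W : Submodule K E}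
    (hW : W ≤ S) :
    finrank K (W.map T ⊔ (S ⊓ orth T S).map T : Submodule K (Dual K E)) +
      finrank K (W ⊓ orth T S : Submodule K E) =
    finrank K ((S ⊓ orth T S).map T) + finrank K W := by
  have h1 := Submodule.finrank_sup_add_finrank_inf_eq (W.map T) ((S ⊓ orth T S).map T)
  have h2 : W.map T ⊓ (S ⊓ orth T S).map T = (W ⊓ orth T S).map T := by
    apply le_antisymm
    · rintro f ⟨⟨w, hw, rfl⟩, ⟨v, hv, hvw⟩⟩
      refine ⟨w, ⟨hw, ?_⟩, rfl⟩
      have h3 : w - v ∈ orth T S := by
        apply ker_le_orth alt
        rw [LinearMap.mem_ker, map_sub, hvw, sub_self]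
      have := (orth T S).add_mem h3 hv.2
      simpa using this
    · apply le_inf
      · exact Submodule.map_mono inf_le_left
      · exact Submodule.map_mono (inf_le_inf_right _ hW)
  have h3 := finrank_map T W
  have h4 := finrank_map T (W ⊓ orth T S)
  have h5 : W ⊓ orth T S ⊓ LinearMap.ker T = W ⊓ LinearMap.ker T := by
    rw [inf_assoc, inf_eq_right.2 (ker_le_orth alt S)]
  rw [h2] at h1
  rw [h5] at h4
  omega

variable {κ : Type} [Fintype κ]

theorem ker_res {T : E →ₗ[K] Dual K E} (alt : ∀ φ, T φ φ = 0)
    {W : κ → Submodule K E} (horth : ∀ A B, A ≠ B → ∀ u ∈ W A, ∀ v ∈ W B, T u v = 0) (A : κ) :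
    finrank K (LinearMap.range (res T (W A))) +
      finrank K (W A ⊓ orth T (⨆ A, W A) : Submodule K E) = finrank K (W A) := by
  have h := LinearMap.finrank_range_add_finrank_ker (res T (W A))
  have h2 : finrank K (LinearMap.ker (res T (W A))) =
      finrank K (W A ⊓ orth T (⨆ A, W A) : Submodule K E) := by
    have e : (LinearMap.ker (res T (W A))).map (W A).subtype =
        W A ⊓ orth T (⨆ A, W A) := by
      ext x
      simp only [Submodule.mem_map, LinearMap.mem_ker, Submodule.subtype_apply,
        Submodule.mem_inf]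
      constructor
      · rintro ⟨y, hy, rfl⟩
        refine ⟨y.2, ?_⟩
        have hx : ∀ B, W B ≤ orth T (Submodule.span K {(y : E)}) := by
          intro B v hv w hw
          obtain ⟨r, rfl⟩ := Submodule.mem_span_singleton.1 hw
          rw [map_smul, LinearMap.smul_apply]
          by_cases hAB : B = A
          · subst hAB
            have := congrArg (fun g : Dual K (W B) => g ⟨v, hv⟩) hy
            simp only [res_apply, LinearMap.zero_apply] at this
            rw [this, smul_zero]
          · rw [horth A B (Ne.symm hAB) _ y.2 v hv, smul_zero]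
        intro w hw
        have hw' := (iSup_le hx) hw
        rw [swap alt, hw' _ (Submodule.mem_span_singleton_self _), neg_zero]
      · rintro ⟨h1, h2⟩
        refine ⟨⟨x, h1⟩, ?_, rfl⟩
        ext v
        rw [res_apply, swap alt, h2 v (le_iSup W A v.2)]
        simp
    rw [← e, Submodule.finrank_map_subtype_eq]
  rw [h2] at h
  exact h

theorem sum_rank_le {T : E →ₗ[K] Dual K E} (alt : ∀ φ, T φ φ = 0)
    {W : κ → Submodule K E} (horth : ∀ A B, A ≠ B → ∀ u ∈ W A, ∀ v ∈ W B, T u v = 0) :
    ∑ A, finrank K (LinearMap.range (res T (W A))) +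
      finrank K ((⨆ A, W A) ⊓ orth T (⨆ A, W A) : Submodule K E) ≤
      finrank K (⨆ A, W A : Submodule K E) := by
  classical
  set S := ⨆ A, W A with hS
  -- the map `Ψ`
  let Ψ : S →ₗ[K] (∀ A, Dual K (W A)) :=
    LinearMap.pi (fun A => (Dual.transpose (R := K) (W A).subtype).comp (T.comp S.subtype))
  have hΨ : ∀ (s : S) (A : κ) (v : W A), Ψ s A v = T s v := fun s A v => rfl
  have h := LinearMap.finrank_range_add_finrank_ker Ψ
  have h2 : finrank K (LinearMap.ker Ψ) = finrank K (S ⊓ orth T S : Submodule K E) := by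
    have e : (LinearMap.ker Ψ).map S.subtype = S ⊓ orth T S := by
      ext x
      simp only [Submodule.mem_map, LinearMap.mem_ker, Submodule.subtype_apply,
        Submodule.mem_inf]
      constructor
      · rintro ⟨y, hy, rfl⟩
        refine ⟨y.2, ?_⟩
        have hx : ∀ B, W B ≤ orth T (Submodule.span K {(y : E)}) := by
          intro B v hv w hw
          obtain ⟨r, rfl⟩ := Submodule.mem_span_singleton.1 hw
          rw [map_smul, LinearMap.smul_apply]
          have h3 : Ψ y B ⟨v, hv⟩ = 0 := by rw [hy]; rfl
          rw [hΨ] at h3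
          rw [h3, smul_zero]
        intro w hw
        have hw' := (iSup_le hx) hw
        rw [swap alt, hw' _ (Submodule.mem_span_singleton_self _), neg_zero]
      · rintro ⟨h1, h2⟩
        refine ⟨⟨x, h1⟩, ?_, rfl⟩
        funext A
        ext v
        rw [hΨ, swap alt, h2 v (le_iSup W A v.2)]
        simp
    rw [← e, Submodule.finrank_map_subtype_eq]
  -- the injection
  let J : (∀ A, LinearMap.range (res T (W A))) →ₗ[K] (∀ A, Dual K (W A)) :=
    LinearMap.pi (fun A => (LinearMap.range (res T (W A))).subtype.comp (LinearMap.proj A))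
  have hJ : ∀ x, J x ∈ LinearMap.range Ψ := by
    intro x
    choose w hw using fun A => (x A).2
    refine ⟨∑ A, ⟨(w A : E), le_iSup W A (w A).2⟩, ?_⟩
    funext B
    ext v
    rw [hΨ]
    have h3 : ((∑ A, (⟨(w A : E), le_iSup W A (w A).2⟩ : S) : S) : E) = ∑ A, (w A : E) := by
      simp
    rw [h3, map_sum, LinearMap.sum_apply, Finset.sum_eq_single B]
    · have h5 := congrArg (fun g : Dual K (W B) => g v) (hw B)
      exact h5
    · intro A _ hAB
      exact horth A B hAB _ (w A).2 _ v.2
    · intro hB
      exact absurd (Finset.mem_univ B) hB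
  have hle : finrank K (∀ A, LinearMap.range (res T (W A))) ≤ finrank K (LinearMap.range Ψ) := by
    apply LinearMap.finrank_le_finrank_of_injective (f := J.codRestrict _ hJ)
    intro x y hxy
    have h4 : J x = J y := congrArg Subtype.val hxy
    funext A
    exact Subtype.ext (congrFun h4 A)
  haveI : ∀ A, Module.Free K (LinearMap.range (res T (W A))) :=
    fun A => Module.Free.of_divisionRing K (LinearMap.range (res T (W A)))
  have hpi : finrank K (∀ A, LinearMap.range (res T (W A))) =
      ∑ A, finrank K (LinearMap.range (res T (W A))) :=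
    Module.finrank_pi_fintype K (M := fun A => LinearMap.range (res T (W A)))
  rw [hpi] at hle
  rw [h2] at h
  omega

end DimCount

open DimCount in
theorem dim_count_of
    (even_rank : ∀ {W : Type} [AddCommGroup W] [Module K W] [FiniteDimensional K W]
      (T : W →ₗ[K] Dual K W), (∀ φ, T φ φ = 0) → Even (finrank K (LinearMap.range T)))
    (T : E →ₗ[K] Dual K E) (alt : ∀ φ, T φ φ = 0) {κ : Type} [Fintype κ]
    (W : κ → Submodule K E) (horth : ∀ A B, A ≠ B → ∀ u ∈ W A, ∀ v ∈ W B, T u v = 0)
    (d : κ → Dual K E) (Q P : Submodule K (Dual K E))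
    (hQ : Q = ((⨆ A, W A) ⊓ orth T (⨆ A, W A)).map T) (hP : P = (orth T (⨆ A, W A)).map T) :
    2 * (finrank K Q + ((finrank K P - finrank K Q) / 2 +
      ∑ A, (finrank K ((W A).map T ⊔ Q ⊔ Submodule.span K {d A} : Submodule K (Dual K E)) -
        finrank K Q) / 2)) ≤ finrank K (LinearMap.range T) := by
  classical
  subst hQ hP
  set S := ⨆ A, W A with hS
  -- each term
  have hterm : ∀ A, 2 * ((finrank K ((W A).map T ⊔ (S ⊓ orth T S).map T ⊔
      Submodule.span K {d A} : Submodule K (Dual K E)) - finrank K ((S ⊓ orth T S).map T)) / 2) ≤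
      finrank K (LinearMap.range (res T (W A))) := by
    intro A
    have h1 := finrank_sup_sub (T := T) alt (S := S) (W := W A) (le_iSup W A)
    have h2 := ker_res (T := T) alt horth A
    have h3 : finrank K ((W A).map T ⊔ (S ⊓ orth T S).map T ⊔
        Submodule.span K {d A} : Submodule K (Dual K E)) ≤
        finrank K ((W A).map T ⊔ (S ⊓ orth T S).map T : Submodule K (Dual K E)) + 1 := by
      refine (Submodule.finrank_add_le_finrank_add_finrank _ _).trans ?_
      have h6 : finrank K (Submodule.span K {d A}) ≤ 1 := by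
        have := finrank_span_le_card (R := K) ({d A} : Set (Dual K E))
        simpa using this
      omega
    obtain ⟨y, hy⟩ := even_rank (res T (W A)) (fun φ => alt φ)
    rw [← hS] at h2
    omega
  have hsum := sum_rank_le (T := T) alt horth
  rw [← hS] at hsum
  have hle : ∑ A, 2 * ((finrank K ((W A).map T ⊔ (S ⊓ orth T S).map T ⊔
      Submodule.span K {d A} : Submodule K (Dual K E)) - finrank K ((S ⊓ orth T S).map T)) / 2) ≤
      ∑ A, finrank K (LinearMap.range (res T (W A))) :=
    Finset.sum_le_sum (fun A _ => hterm A)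
  rw [← Finset.mul_sum] at hle
  -- `S` itself
  have hSS := finrank_sup_sub (T := T) alt (S := S) (W := S) le_rfl
  have hsup : S.map T ⊔ (S ⊓ orth T S).map T = S.map T :=
    sup_eq_left.2 (Submodule.map_mono inf_le_left)
  rw [hsup] at hSS
  -- `P`
  have hP1 := finrank_map T (orth T S)
  rw [inf_eq_right.2 (ker_le_orth alt S)] at hP1
  have hP2 := Subspace.finrank_add_finrank_dualCoannihilator_eq (S.map T)
  rw [← orth_eq] at hP2
  have hT := LinearMap.finrank_range_add_finrank_ker T
  have hQP : finrank K ((S ⊓ orth T S).map T) ≤ finrank K ((orth T S).map T) :=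
    Submodule.finrank_mono (Submodule.map_mono inf_le_right)
  have hQS : finrank K ((S ⊓ orth T S).map T) ≤ finrank K (S.map T) :=
    Submodule.finrank_mono (Submodule.map_mono inf_le_left)
  omega

end Pool.Agent.Helper36.LM
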